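import Pool.Agent.Lib.MP_947bc0_nt.Asy86

/-!
MP_947bc0_nt: an upper bound for the number of distinct prime factors of `Φ_d(2)`.

Proof.  Möbius inversion gives `Φ_d(2) ≤ 2 ^ φ(d) ∏_{e | d} (1 - 2 ^ -e)⁻¹ ≤ 4 * 2 ^ φ(d)`.  At most one
prime divisor of `Φ_d(2)` divides `d`; the others are `≡ 1 (mod d)` and distinct, so with
`w = ω(Φ_d(2))` their product is at least `d ^ (w - 1) (w - 1)!`.  Stirling's formula and
`d ≤ 2 φ(d) ^ 2` give the asymptotic form.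
-/

namespace Pool.Agent.Results.MP_947bc0_nt.UpperBound

open Pool.Agent.Lib.MP_947bc0_nt

/-- The number of distinct primes dividing `Φ_d(2)`. -/
noncomputable def omega (d : ℕ) : ℕ :=
  ((Polynomial.cyclotomic d ℤ).eval 2).natAbs.primeFactors.card

/-- (1) `d ^ (w - 1) (w - 1)! ≤ 4 * 2 ^ φ(d)` for `w = ω(Φ_d(2))` and every `d ≥ 1`.
(2) For every `ε > 0`, `ω(Φ_d(2)) ≤ ((log 2) / 2 + ε) φ(d) / log φ(d)` for all large `d`. -/
theorem result :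
    (∀ d : ℕ, 0 < d →
      d ^ (omega d - 1) * Nat.factorial (omega d - 1) ≤ 4 * 2 ^ Nat.totient d) ∧
    ∀ ε : ℝ, 0 < ε → ∃ d₀ : ℕ, ∀ d : ℕ, d₀ ≤ d →
      (omega d : ℝ) ≤ (Real.log 2 / 2 + ε) * Nat.totient d / Real.log (Nat.totient d) :=
  ⟨fun d hd => main_ineq d hd, fun ε hε => asy86 ε hε⟩

end Pool.Agent.Results.MP_947bc0_nt.UpperBound
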